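import Pool.Agent.R431.SG.CurvL

/-!
# Counting the obstructions for tuples and covering polynomials
-/

set_option autoImplicit false
set_option linter.all false

open scoped Classical

namespace Pool.Agent.D0H99.AC

open Polynomial NumberField Pool.Agent.R431.SG

/-- the index set of the prime factors -/
abbrev Qx (N r : ℕ) : Type := (Fin N × Fin N) ⊕ Fin r

/-- the coordinates -/
abbrev Ix (N r n : ℕ) : Type := (Fin (N + 1) ⊕ Fin r) × Fin (n + 1)

section defs
variable {R : Type} [CommRing R] {N r n : ℕ}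

/-- the polynomials of a tuple -/
noncomputable def tp (c : Ix N r n → R) (x : Fin (N + 1) ⊕ Fin r) : R[X] := pol fun j => c (x, j)

/-- the differences and the covering polynomials -/
noncomputable def wq (c : Ix N r n → R) : Qx N r → R[X] :=
  Sum.elim (fun q => tp c (Sum.inl q.1.succ) - tp c (Sum.inl q.2.succ)) (fun j => tp c (Sum.inr j))

theorem tp_map {S : Type} [CommRing S] (φ : R →+* S) (c : Ix N r n → R)
    (x : Fin (N + 1) ⊕ Fin r) : (tp c x).map φ = tp (fun i => φ (c i)) x := pol_map φ _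

theorem wq_map {S : Type} [CommRing S] (φ : R →+* S) (c : Ix N r n → R) (q : Qx N r) :
    (wq c q).map φ = wq (fun i => φ (c i)) q := by
  rcases q with q | j
  · simp only [wq, Sum.elim_inl]
    rw [Polynomial.map_sub, tp_map, tp_map]
  · simp only [wq, Sum.elim_inr]
    rw [tp_map]

theorem prod_wq_map {S : Type} [CommRing S] (φ : R →+* S) (c : Ix N r n → R) (s : Qx N r → ℕ) :
    (∏ q, wq c q ^ s q).map φ = ∏ q, wq (fun i => φ (c i)) q ^ s q := by
  rw [Polynomial.map_prod]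
  exact Finset.prod_congr rfl fun q _ => by rw [Polynomial.map_pow, wq_map]

end defs

/-- the ordered pairs -/
def Pq (N r : ℕ) : Finset (Qx N r) :=
  Finset.univ.filter fun q => ∀ a b : Fin N, q = Sum.inl (a, b) → a < b

theorem inl_mem {N r : ℕ} {a b : Fin N} : (Sum.inl (a, b) : Qx N r) ∈ Pq N r ↔ a < b := by
  rw [Pq, Finset.mem_filter]
  constructor
  · exact fun h => h.2 a b rfl
  · intro h
    refine ⟨Finset.mem_univ _, fun a' b' e => ?_⟩
    have e1 := Sum.inl_injective e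
    rw [Prod.mk.injEq] at e1
    rw [← e1.1, ← e1.2]
    exact h

theorem inr_mem {N r : ℕ} (j : Fin r) : (Sum.inr j : Qx N r) ∈ Pq N r := by
  rw [Pq, Finset.mem_filter]
  exact ⟨Finset.mem_univ _, fun a b e => absurd e (by simp)⟩

section emb
variable {N r : ℕ}

/-- the embedding of the indices -/
def ig (N r : ℕ) (a : Fin N) : Fin (N + r + 1) := (Fin.castAdd r a).castSucc

/-- the embedding of the indices of the covering polynomials -/
def ih (N r : ℕ) (j : Fin r) : Fin (N + r + 1) := (Fin.natAdd N j).castSucc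

theorem ig_inj : Function.Injective (ig N r) := fun a b h =>
  Fin.castAdd_injective N r (Fin.castSucc_injective _ h)

theorem ih_inj : Function.Injective (ih N r) := fun a b h =>
  Fin.natAdd_injective r N (Fin.castSucc_injective _ h)

theorem ig_ne (a : Fin N) : ig N r a ≠ Fin.last (N + r) := (Fin.castSucc_lt_last _).ne

theorem ih_lt (j : Fin r) : ih N r j < Fin.last (N + r) := Fin.castSucc_lt_last _

theorem ig_lt {a b : Fin N} : ig N r a < ig N r b ↔ a < b := by
  unfold ig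
  rw [Fin.castSucc_lt_castSucc_iff]
  exact Iff.rfl

/-- the exponents -/
noncomputable def sm (s : Qx N r → ℕ) (q : Fin (N + r + 1) × Fin (N + r + 1)) : ℕ :=
  (∑ x : Fin N × Fin N, if (ig N r x.1, ig N r x.2) = q then s (Sum.inl x) else 0) +
    ∑ j : Fin r, if (ih N r j, Fin.last (N + r)) = q then s (Sum.inr j) else 0

theorem prod_single {X Y R : Type} [Fintype X] [Fintype Y] [DecidableEq Y] [CommRing R]
    (e : X → Y) (s : X → ℕ)
    (a : Y → R) : ∏ q, a q ^ (∑ x, if e x = q then s x else 0) = ∏ x, a (e x) ^ s x := by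
  have h1 : ∀ q ∈ (Finset.univ : Finset Y), a q ^ (∑ x, if e x = q then s x else 0) =
      ∏ x, a q ^ (if e x = q then s x else 0) := fun q _ =>
    (Finset.prod_pow_eq_pow_sum _ _ _).symm
  rw [Finset.prod_congr rfl h1, Finset.prod_comm]
  refine Finset.prod_congr rfl fun x _ => ?_
  rw [Finset.prod_eq_single (e x)]
  · rw [if_pos rfl]
  · intro q _ hq
    rw [if_neg hq.symm, pow_zero]
  · intro h
    exact absurd (Finset.mem_univ _) h

theorem fs_sm {R : Type} [CommRing R] (s : Qx N r → ℕ) (u : Fin (N + r + 1) → R) :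
    fs (sm s) u = (∏ x : Fin N × Fin N, (u (ig N r x.1) - u (ig N r x.2)) ^ s (Sum.inl x)) *
      ∏ j : Fin r, (u (ih N r j) - u (Fin.last (N + r))) ^ s (Sum.inr j) := by
  unfold fs sm
  simp only [pow_add, Finset.prod_mul_distrib]
  rw [prod_single (fun x : Fin N × Fin N => (ig N r x.1, ig N r x.2)) (fun x => s (Sum.inl x))
    (fun q => u q.1 - u q.2), prod_single (fun j : Fin r => (ih N r j, Fin.last (N + r)))
    (fun j => s (Sum.inr j)) (fun q => u q.1 - u q.2)]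

theorem sm_inl (s : Qx N r → ℕ) (a b : Fin N) :
    sm s (ig N r a, ig N r b) = s (Sum.inl (a, b)) := by
  unfold sm
  rw [Finset.sum_eq_single (a, b), if_pos rfl, Finset.sum_eq_zero, add_zero]
  · intro j _
    rw [if_neg]
    intro h
    exact ig_ne b (Prod.mk.inj h).2.symm
  · rintro ⟨x, y⟩ _ hne
    rw [if_neg]
    intro h
    obtain ⟨h1, h2⟩ := Prod.mk.inj h
    exact hne (Prod.ext (ig_inj h1) (ig_inj h2))
  · intro h
    exact absurd (Finset.mem_univ _) h

theorem sm_inr (s : Qx N r → ℕ) (j : Fin r) :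
    sm s (ih N r j, Fin.last (N + r)) = s (Sum.inr j) := by
  unfold sm
  rw [Finset.sum_eq_zero, zero_add, Finset.sum_eq_single j, if_pos rfl]
  · intro j' _ hne
    rw [if_neg]
    intro h
    exact hne (ih_inj (Prod.mk.inj h).1)
  · intro h
    exact absurd (Finset.mem_univ _) h
  · rintro ⟨x, y⟩ _
    rw [if_neg]
    intro h
    exact ig_ne y (Prod.mk.inj h).2

theorem sm_zero {s : Qx N r → ℕ} (hs : ∀ q, q ∉ Pq N r → s q = 0)
    (q : Fin (N + r + 1) × Fin (N + r + 1)) (hq : ¬ q.1 < q.2) : sm s q = 0 := by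
  have h1 : (∑ x : Fin N × Fin N, if (ig N r x.1, ig N r x.2) = q then s (Sum.inl x) else 0) = 0 := by
    refine Finset.sum_eq_zero ?_
    rintro ⟨a, b⟩ _
    split_ifs with h
    · refine hs _ fun hm => hq ?_
      rw [← h]
      exact ig_lt.2 (inl_mem.1 hm)
    · rfl
  have h2 : (∑ j : Fin r, if (ih N r j, Fin.last (N + r)) = q then s (Sum.inr j) else 0) = 0 := by
    refine Finset.sum_eq_zero fun j _ => ?_
    rw [if_neg]
    rintro rfl
    exact hq (ih_lt j)
  unfold sm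
  rw [h1, h2]

end emb

section count
variable {p : ℕ} [Fact p.Prime] {N r : ℕ}

/-- the change of coordinates -/
def phi (N r m p : ℕ) [Fact p.Prime] : (Fin (N + r + 1 + 1) × Fin (m + 3) → ZMod p) →+
    (Ix N r (m + 2) → ZMod p) where
  toFun d := fun i => Sum.elim
    (fun x : Fin (N + 1) => d ((Fin.cases 0 (fun a => (ig N r a).succ) x : Fin (N + r + 1 + 1)),
      i.2)) (fun j => d ((ih N r j).succ, i.2) - d ((Fin.last (N + r)).succ, i.2)) i.1
  map_zero' := by
    funext ⟨x, t⟩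
    rcases x with x | j <;> simp
  map_add' c d := by
    funext ⟨x, t⟩
    rcases x with x | j
    · simp
    · simp only [Sum.elim_inr, Pi.add_apply]
      ring

theorem phi_inl_zero {m : ℕ} (d : Fin (N + r + 1 + 1) × Fin (m + 3) → ZMod p) (t : Fin (m + 3)) :
    phi N r m p d (Sum.inl 0, t) = d (0, t) := rfl

theorem phi_inl_succ {m : ℕ} (d : Fin (N + r + 1 + 1) × Fin (m + 3) → ZMod p) (a : Fin N)
    (t : Fin (m + 3)) : phi N r m p d (Sum.inl a.succ, t) = d ((ig N r a).succ, t) := rfl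

theorem phi_inr {m : ℕ} (d : Fin (N + r + 1 + 1) × Fin (m + 3) → ZMod p) (j : Fin r)
    (t : Fin (m + 3)) : phi N r m p d (Sum.inr j, t) = d ((ih N r j).succ, t) -
      d ((Fin.last (N + r)).succ, t) := rfl

theorem phi_surj {m : ℕ} : Function.Surjective (phi N r m p) := by
  intro c
  refine ⟨fun q => Fin.cases (c (Sum.inl 0, q.2)) (fun i => Fin.lastCases 0 (fun i' =>
    Fin.addCases (fun a => c (Sum.inl a.succ, q.2)) (fun j => c (Sum.inr j, q.2)) i') i) q.1, ?_⟩
  funext ⟨x, t⟩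
  rcases x with x | j
  · rcases Fin.eq_zero_or_eq_succ x with rfl | ⟨a, rfl⟩
    · rw [phi_inl_zero]
      rfl
    · rw [phi_inl_succ]
      simp only [ig, Fin.cases_succ, Fin.lastCases_castSucc, Fin.addCases_left]
  · rw [phi_inr]
    simp only [ih, Fin.cases_succ, Fin.lastCases_castSucc, Fin.addCases_right, Fin.lastCases_last,
      sub_zero]

theorem fs_phi {m : ℕ} (s : Qx N r → ℕ) (d : Fin (N + r + 1 + 1) × Fin (m + 3) → ZMod p) :
    fs (sm s) (fun i => gp (n := m + 2) d i.succ) = ∏ q, wq (phi N r m p d) q ^ s q := by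
  rw [fs_sm, Fintype.prod_sum_type]
  congr 1
  refine Finset.prod_congr rfl fun j _ => ?_
  simp only [wq, Sum.elim_inr]
  congr 1
  unfold gp tp
  rw [pol_sub]
  rfl

theorem card_Ix (N r m p : ℕ) [Fact p.Prime] :
    (Fintype.card (Ix N r (m + 2) → ZMod p) : ℝ) = (p : ℝ) ^ Fintype.card (Ix N r (m + 2)) := by
  rw [Fintype.card_fun, ZMod.card, Nat.cast_pow]

theorem card_wObs {ℓ : ℕ} (hℓ : ℓ.Prime) (hex : ∃ γ : ZMod p, NP ℓ γ) {s : Qx N r → ℕ}
    (hs : ∀ q, q ∉ Pq N r → s q = 0) {q0 : Qx N r} (hq0 : ¬ ℓ ∣ s q0) (hp : 1600 ≤ p)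
    (hN : 4 * (N + r + 1) + 6 ≤ p) (hN2 : 2 * ((N + r + 1) * (N + r + 1)) ≤ p) (m : ℕ) :
    (1 / (2048 * (m + 2) ^ 2 : ℝ)) * (p : ℝ) ^ Fintype.card (Ix N r (m + 2)) ≤
      (({c : Ix N r (m + 2) → ZMod p |
        PObs ℓ (∏ q, wq c q ^ s q) fun j => c (Sum.inl 0, j)}.ncard : ℕ) : ℝ) := by
  obtain ⟨Z, hZ⟩ : ∃ Z : Set (Ix N r (m + 2) → ZMod p), Z = {c : Ix N r (m + 2) → ZMod p |
        PObs ℓ (∏ q, wq c q ^ s q) fun j => c (Sum.inl 0, j)} := ⟨_, rfl⟩
  rw [← hZ]
  obtain ⟨q1, hq1⟩ : ∃ q1 : Fin (N + r + 1) × Fin (N + r + 1), ¬ ℓ ∣ sm s q1 := by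
    rcases q0 with ⟨a, b⟩ | j
    · exact ⟨_, by rw [sm_inl s a b]; exact hq0⟩
    · exact ⟨_, by rw [sm_inr s j]; exact hq0⟩
  have h1 := card_sObs (p := p) hℓ hex (sm_zero hs) hq1 hp hN hN2 m
  have h2 : {c : Fin (N + r + 1 + 1) × Fin (m + 3) → ZMod p |
      PObs ℓ (fs (sm s) fun i => gp c i.succ) fun j => c (0, j)} =
      {c | phi N r m p c ∈ Z} := by
    ext d
    rw [hZ, Set.mem_setOf_eq, Set.mem_setOf_eq, Set.mem_setOf_eq, fs_phi]
    exact Iff.rfl
  rw [h2] at h1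
  have h3 := card_preim (phi N r m p) phi_surj Z
  have h4 : ({x | phi N r m p x ∈ Z}.ncard : ℝ) * (Fintype.card (Ix N r (m + 2) → ZMod p) : ℝ) =
      (Z.ncard : ℝ) * (Fintype.card (Fin (N + r + 1 + 1) × Fin (m + 3) → ZMod p) : ℝ) := by
    exact_mod_cast h3
  have h5 : (Fintype.card (Fin (N + r + 1 + 1) × Fin (m + 3) → ZMod p) : ℝ) =
      (p : ℝ) ^ Fintype.card (Fin (N + r + 1 + 1) × Fin (m + 3)) := by
    rw [Fintype.card_fun, ZMod.card, Nat.cast_pow]
  rw [card_Ix, h5] at h4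
  have hp0 : (0 : ℝ) < p := by exact_mod_cast (Fact.out : p.Prime).pos
  have h6 : (0 : ℝ) < (p : ℝ) ^ Fintype.card (Fin (N + r + 1 + 1) × Fin (m + 3)) := by positivity
  have h7 : (0 : ℝ) < (p : ℝ) ^ Fintype.card (Ix N r (m + 2)) := by positivity
  refine le_of_mul_le_mul_right ?_ h6
  rw [← h4]
  calc _ = ((1 / (2048 * (m + 2) ^ 2 : ℝ)) *
        (p : ℝ) ^ Fintype.card (Fin (N + r + 1 + 1) × Fin (m + 3))) *
          (p : ℝ) ^ Fintype.card (Ix N r (m + 2)) := by ring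
    _ ≤ _ := mul_le_mul_of_nonneg_right h1 h7.le

/-- the linear maps to one polynomial -/
def prw (N r m p : ℕ) [Fact p.Prime] (q : Qx N r) :
    (Ix N r (m + 2) → ZMod p) →+ (Fin (m + 3) → ZMod p) where
  toFun c := fun j => Sum.elim (fun x => c (Sum.inl x.1.succ, j) - c (Sum.inl x.2.succ, j))
    (fun x => c (Sum.inr x, j)) q
  map_zero' := by
    funext j
    rcases q with q | x <;> simp
  map_add' c d := by
    funext j
    rcases q with q | x
    · simp only [Sum.elim_inl, Pi.add_apply]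
      ring
    · simp

theorem prw_surj {m : ℕ} {q : Qx N r} (hq : q ∈ Pq N r) :
    Function.Surjective (prw N r m p q) := by
  intro u
  rcases q with ⟨a, b⟩ | x
  · have h : a ≠ b := (inl_mem.1 hq).ne
    refine ⟨fun i => if i.1 = Sum.inl a.succ then u i.2 else 0, ?_⟩
    funext j
    show (if (Sum.inl a.succ : Fin (N + 1) ⊕ Fin r) = Sum.inl a.succ then u j else 0) -
      (if (Sum.inl b.succ : Fin (N + 1) ⊕ Fin r) = Sum.inl a.succ then u j else 0) = u j
    rw [if_pos rfl, if_neg, sub_zero]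
    intro h'
    exact h (Fin.succ_injective _ (Sum.inl_injective h')).symm
  · exact ⟨fun i => u i.2, rfl⟩

theorem pol_prw {m : ℕ} (q : Qx N r) (c : Ix N r (m + 2) → ZMod p) :
    pol (prw N r m p q c) = wq c q := by
  rcases q with q | x
  · simp only [wq, Sum.elim_inl, tp]
    rw [pol_sub]
    rfl
  · rfl

/-- the projection to the first polynomial -/
def pr0 (N r m p : ℕ) [Fact p.Prime] :
    (Ix N r (m + 2) → ZMod p) →+ (Fin (m + 3) → ZMod p) where
  toFun c := fun j => c (Sum.inl 0, j)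
  map_zero' := rfl
  map_add' _ _ := rfl

theorem pr0_surj {m : ℕ} : Function.Surjective (pr0 N r m p) := fun u =>
  ⟨fun i => u i.2, rfl⟩

theorem pull (N r m p : ℕ) [Fact p.Prime] {δ δ0 : ℝ} (hδ : δ ≤ δ0)
    (f : (Ix N r (m + 2) → ZMod p) →+ (Fin (m + 3) → ZMod p))
    (hf : Function.Surjective f) (Z : Set (Fin (m + 3) → ZMod p))
    (hZ : δ0 * (p : ℝ) ^ (m + 3) ≤ (Z.ncard : ℝ))
    {Ω : Set (Ix N r (m + 2) → ZMod p)} (hΩ : ∀ x, f x ∈ Z → x ∈ Ω) :
    δ * (p : ℝ) ^ Fintype.card (Ix N r (m + 2)) ≤ (Ω.ncard : ℝ) := by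
  have h1 := proportion f hf Z (δ := δ0) (Ω := Ω) (by
    rw [Fintype.card_fun, ZMod.card, Fintype.card_fin, Nat.cast_pow]
    exact hZ) hΩ
  rw [card_Ix] at h1
  refine le_trans (mul_le_mul_of_nonneg_right hδ (by positivity)) h1

end count

/-- the obstructions -/
def Obs (ℓ N r m : ℕ) (S : Option (Option (Qx N r ⊕ (Qx N r → Fin ℓ)))) (p : ℕ) [Fact p.Prime] :
    Set (Ix N r (m + 2) → ZMod p) :=
  match S with
  | none => {c | (tp c (Sum.inl 0)).natDegree = m + 2 ∧ Irreducible (tp c (Sum.inl 0))}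
  | some none => {c | ∃ (ρ : ZMod p) (g : (ZMod p)[X]), tp c (Sum.inl 0) = (X - C ρ) * g ∧
      g.natDegree = m + 1 ∧ Irreducible g}
  | some (some (Sum.inl q)) => {c | q ∈ Pq N r → ((wq c q).natDegree = m + 2 ∧
      Irreducible (wq c q))}
  | some (some (Sum.inr s)) => {c | ((∀ q, q ∉ Pq N r → (s q : ℕ) = 0) ∧ ∃ q, (s q : ℕ) ≠ 0) →
      PObs ℓ (∏ q, wq c q ^ (s q : ℕ)) fun j => c (Sum.inl 0, j)}

theorem card_all (N r m p : ℕ) [Fact p.Prime] {δ : ℝ} (hδ : δ ≤ 1) :
    δ * (p : ℝ) ^ Fintype.card (Ix N r (m + 2)) ≤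
      (((Set.univ : Set (Ix N r (m + 2) → ZMod p)).ncard : ℕ) : ℝ) := by
  rw [Set.ncard_univ, Nat.card_eq_fintype_card, card_Ix]
  have h0 : (0 : ℝ) ≤ (p : ℝ) ^ Fintype.card (Ix N r (m + 2)) := by positivity
  calc δ * (p : ℝ) ^ Fintype.card (Ix N r (m + 2)) ≤
      1 * (p : ℝ) ^ Fintype.card (Ix N r (m + 2)) := mul_le_mul_of_nonneg_right hδ h0
    _ = _ := one_mul _

theorem card_Obs {k : Type} [Field k] [NumberField k] {ℓ : ℕ} (hℓ : ℓ.Prime) {ζ' : 𝓞 k}
    (hζ' : IsPrimitiveRoot ζ' ℓ) {N r m : ℕ} (hm : 2 ≤ m)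
    (S : Option (Option (Qx N r ⊕ (Qx N r → Fin ℓ)))) (p : ℕ) [Fact p.Prime]
    (σ : 𝓞 k →+* ℤ_[p])
    (hp : 1600 + (4 * (N + r + 1) + 6) + 2 * ((N + r + 1) * (N + r + 1)) + ℓ + 1 ≤ p) :
    (1 / (2048 * ((m + 2 : ℕ) : ℝ) ^ 2)) * (p : ℝ) ^ Fintype.card (Ix N r (m + 2)) ≤
      ((Obs ℓ N r m S p).ncard : ℝ) := by
  obtain ⟨hδa, hδb, hδ1⟩ := e1 (show 4 ≤ m + 2 by omega) N
  rcases S with _ | _ | q | s
  · exact pull N r m p hδa (pr0 N r m p) pr0_surj _ (card_irr p (by omega)) fun x hx => hx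
  · refine pull N r m p hδb (pr0 N r m p) pr0_surj
      {c | ∃ (ρ : ZMod p) (g : (ZMod p)[X]), pol c = (X - C ρ) * g ∧
        g.natDegree = m + 1 ∧ Irreducible g} ?_ fun x hx => hx
    exact card_fac p (m := m + 1) (by omega)
  · by_cases hq : q ∈ Pq N r
    · refine pull N r m p hδa (prw N r m p q) (prw_surj hq) _ (card_irr p (by omega)) ?_
      intro x hx _
      rw [← pol_prw]
      exact hx
    · have h1 : Obs ℓ N r m (some (some (Sum.inl q))) p = Set.univ := by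
        ext c
        simp [Obs, hq]
      rw [h1]
      exact card_all N r m p hδ1
  · by_cases hs : (∀ q, q ∉ Pq N r → (s q : ℕ) = 0) ∧ ∃ q, (s q : ℕ) ≠ 0
    · obtain ⟨q0, hq0⟩ := hs.2
      have h1 : ¬ ℓ ∣ (s q0 : ℕ) := Nat.not_dvd_of_pos_of_lt (Nat.pos_of_ne_zero hq0) (s q0).2
      have h2 := card_wObs (p := p) hℓ (np_exists hℓ hζ' σ (by omega))
        (s := fun q => (s q : ℕ)) hs.1 h1 (by omega) (by omega) (by omega) m
      have h3 : Obs ℓ N r m (some (some (Sum.inr s))) p =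
          {c | PObs ℓ (∏ q, wq c q ^ (s q : ℕ)) fun j => c (Sum.inl 0, j)} := by
        ext c
        show (_ → _) ↔ _
        exact ⟨fun h => h hs, fun h _ => h⟩
      rw [h3]
      refine le_trans (le_of_eq ?_) h2
      push_cast
      rfl
    · have h1 : Obs ℓ N r m (some (some (Sum.inr s))) p = Set.univ := by
        ext c
        show (_ → _) ↔ _
        exact ⟨fun _ => Set.mem_univ _, fun _ h => absurd h hs⟩
      rw [h1]
      exact card_all N r m p hδ1

end Pool.Agent.D0H99.AC
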