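import Pool.Agent.R431.SG.CurvL
import Pool.Agent.D0H99.EA.Scale
import Pool.Agent.D0H99.EA.Fin2

/-!
# The criterion for the twists of a curve over a covering
-/

set_option autoImplicit false
set_option linter.all false

open Polynomial IsDedekindDomain

namespace Pool.Agent.D0H99.AC

open Pool.Agent.Y713 Pool.Agent.Y713.SE Pool.Agent.R431.SG

section
variable {k : Type} [Field k] (K : Type) [Field K] [Algebra k[X] K] [IsFractionRing k[X] K]

theorem crit_gen {ℓ : ℕ} (hℓ : ℓ.Prime) (hk : (ℓ : k) ≠ 0) {ζ : k} (hζ : IsPrimitiveRoot ζ ℓ)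
    {N : ℕ} (hn : ¬ ℓ ∣ N) {g : Fin N → k[X]} (hg : Function.Injective g) (T : Finset k[X])
    (hT : ∀ π ∈ T, Irreducible π ∧ π.Monic)
    (hbad : ∀ i j, i ≠ j → ∀ v : HeightOneSpectrum k[X], (∀ π ∈ T, π ∉ v.asIdeal) →
      g i - g j ∉ v.asIdeal)
    {D : k[X]} (hD2 : Irreducible D)
    (hD4 : ∀ c : k, (∃ a : k[X], D ∣ C c - a ^ ℓ) → ∃ b : k, c = b ^ ℓ)
    (hDT : ∀ π ∈ T, ¬ D ∣ π)
    (hD5 : ∀ (c : k) (a : k[X] → ℕ) (z : k[X]), c ≠ 0 → D ∣ C c * ∏ π ∈ T, π ^ a π - z ^ ℓ →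
      ∀ π ∈ T, ℓ ∣ a π)
    {f : k[X]} (hf0 : f ≠ 0)
    (hf : ∀ v : HeightOneSpectrum k[X], (∀ π ∈ T, π ∉ v.asIdeal) → f ∉ v.asIdeal) :
    Jac.ShaPrimaryTrivial ℓ
      (C (algebraMap k[X] K (f * D)) * ∏ i, (X - C (algebraMap k[X] K (g i)))) k[X] := by
  classical
  have he : Function.Injective fun i => algebraMap k[X] K (g i) :=
    (IsFractionRing.injective k[X] K).comp hg
  have hδ : algebraMap k[X] K (f * D) ≠ 0 := by
    rw [Ne, map_eq_zero_iff _ (IsFractionRing.injective k[X] K)]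
    exact mul_ne_zero hf0 hD2.ne_zero
  let Bad : Set (HeightOneSpectrum k[X]) := {v | ∃ π ∈ T, π ∈ v.asIdeal}
  have hnBad : ∀ v, v ∉ Bad → (∀ π ∈ T, π ∉ v.asIdeal) := fun v hv π hπ hm => hv ⟨π, hπ, hm⟩
  let DD := tDat K hℓ hk hζ hδ he hn
  have hsep : ∀ v, v ∉ Bad → ∀ i j, i ≠ j → v.valuation K (DD.e i - DD.e j) = 1 := by
    intro v hv i j hij
    show v.valuation K (algebraMap k[X] K (g i) - algebraMap k[X] K (g j)) = 1
    rw [← map_sub, val_eq_one_iff]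
    exact hbad i j hij v (hnBad v hv)
  have hv0 : hp D hD2 ∉ Bad := by
    rintro ⟨π, hπ, hm⟩
    exact hDT π hπ ((mem_hp hD2 π).1 hm)
  have hfe : DD.f = C (algebraMap k[X] K (f * D)) * ∏ i, (X - C (algebraMap k[X] K (g i))) := rfl
  rw [← hfe]
  obtain ⟨p, hexp⟩ := ExpChar.exists K
  haveI := hexp
  haveI : ExpChar (SeparableClosure K) p :=
    expChar_of_injective_algebraMap (algebraMap K (SeparableClosure K)).injective p
  haveI : ∀ v : HeightOneSpectrum k[X], ExpChar (SeparableClosure (v.adicCompletion K)) p := fun v =>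
    expChar_of_injective_algebraMap
      (algebraMap K (SeparableClosure (v.adicCompletion K))).injective p
  have hvf : ∀ v, v ∉ Bad → v.valuation K (algebraMap k[X] K f) = 1 := by
    intro v hv
    rw [val_eq_one_iff]
    exact hf v (hnBad v hv)
  have hvD : ∀ v, v ≠ hp D hD2 → v.valuation K (algebraMap k[X] K D) = 1 := by
    intro v hv
    rw [val_eq_one_iff]
    exact fun hmem => hv (eq_hp hD2 hmem)
  apply DD.sha_primary (R := k[X])
  refine DD.crit1 (p := p) (fun v => SeparableClosure (v.adicCompletion K)) ?_ Bad (hp D hD2)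
    (hsep _ hv0) ?_ ?_ ?_
  · intro v
    have h3 : ((ℓ : ℕ) : K) = algebraMap k[X] K (C (ℓ : k)) := by
      rw [C_eq_natCast, map_natCast]
    rw [h3]
    exact val_C hk
  · show ¬ Pw ℓ ((hp D hD2).valuation K (algebraMap k[X] K (f * D)))
    rw [map_mul, map_mul, hvf _ hv0, one_mul, val_hp_self]
    exact not_pw_exp hℓ
  · intro v hv hvne
    refine ⟨hsep v hv, ?_⟩
    show v.valuation K (algebraMap k[X] K (f * D)) = 1
    rw [map_mul, map_mul, hvf v hv, hvD v hvne, one_mul]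
  · intro d hd hpw hx
    refine stab2 hℓ hD2 hD4 T hT hDT hD5 hd (fun v hv hvne => hpw v ?_ hvne) hx
    rintro ⟨π, hπ, hm⟩
    exact hv π hπ hm

end

/-- the set of the normalised prime factors of a family -/
theorem obs_gen {k : Type} [Field k] {ℓ : ℕ} (hℓ : ℓ.Prime) {Q : Type} [Fintype Q] [DecidableEq Q]
    (w : Q → k[X]) (P : Finset Q) (hirr : ∀ q ∈ P, Irreducible (w q)) :
    ∃ T : Finset k[X], (∀ π ∈ T, Irreducible π ∧ π.Monic) ∧
      (∀ q ∈ P, ∀ v : HeightOneSpectrum k[X], (∀ π ∈ T, π ∉ v.asIdeal) → w q ∉ v.asIdeal) ∧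
      ∀ D : k[X], Irreducible D →
        (∀ s : Q → ℕ, (∀ q, s q < ℓ) → (∀ q, q ∉ P → s q = 0) →
          (∃ q, s q ≠ 0) → ∀ (a : k) (W z : k[X]), a ≠ 0 → IsCoprime D W →
            ¬ D ∣ C a * ((∏ q, w q ^ s q) * W ^ ℓ) - z ^ ℓ) →
        (∀ π ∈ T, ¬ D ∣ π) ∧
        ∀ (c : k) (a : k[X] → ℕ) (z : k[X]), c ≠ 0 → D ∣ C c * ∏ π ∈ T, π ^ a π - z ^ ℓ →
          ∀ π ∈ T, ℓ ∣ a π := by
  classical
  have hwne : ∀ q ∈ P, w q ≠ 0 := fun q hq => (hirr q hq).ne_zero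
  let nrm : Q → k[X] := fun q => w q * C (w q).leadingCoeff⁻¹
  set T : Finset k[X] := P.image nrm with hTdef
  have hu : ∀ q ∈ P, IsUnit (C (w q).leadingCoeff⁻¹) := fun q hq =>
    isUnit_C.2 (isUnit_iff_ne_zero.2 (inv_ne_zero (leadingCoeff_ne_zero.2 (hwne q hq))))
  have hT : ∀ π ∈ T, Irreducible π ∧ π.Monic := by
    intro π hπ
    obtain ⟨q, hq, rfl⟩ := Finset.mem_image.1 hπ
    exact ⟨irreducible_mul_leadingCoeff_inv.2 (hirr q hq),
      monic_mul_leadingCoeff_inv (hwne q hq)⟩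
  have hℓ2 : 2 ≤ ℓ := hℓ.two_le
  refine ⟨T, hT, ?_, ?_⟩
  · intro q hq v hv hm
    apply hv (nrm q) (Finset.mem_image.2 ⟨q, hq, rfl⟩)
    exact Ideal.mul_mem_right _ _ hm
  intro D hD hcon
  have hD1 : ∀ q ∈ P, ¬ D ∣ w q := by
    intro q hq hd'
    refine hcon (fun q' => if q' = q then 1 else 0) ?_ ?_ ⟨q, by simp⟩ 1 1 0 one_ne_zero
      isCoprime_one_right ?_
    · intro q'
      split_ifs <;> omega
    · intro q' hq'
      rw [if_neg]
      rintro rfl
      exact hq' hq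
    · have h1 : ∏ q', w q' ^ (if q' = q then 1 else 0) = w q := by
        rw [Finset.prod_eq_single q]
        · simp
        · intro q' _ h
          simp [h]
        · intro h
          exact absurd (Finset.mem_univ _) h
      rw [h1, C_1, one_mul, one_pow, mul_one, zero_pow hℓ.ne_zero, sub_zero]
      exact hd'
  have hDT : ∀ π ∈ T, ¬ D ∣ π := by
    intro π hπ hd
    obtain ⟨q, hq, rfl⟩ := Finset.mem_image.1 hπ
    exact hD1 q hq ((IsUnit.dvd_mul_right (hu q hq)).1 hd)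
  refine ⟨hDT, ?_⟩
  intro b a z hb hdvd
  by_contra hex
  push Not at hex
  obtain ⟨π0, hπ0, hna⟩ := hex
  obtain ⟨P', hP'P, hinj, himg⟩ := Finset.exists_subset_injOn_image_eq_of_surjOn (f := nrm)
    (P : Set Q) T (by
      intro π hπ
      obtain ⟨q, hq, rfl⟩ := Finset.mem_image.1 hπ
      exact ⟨q, hq, rfl⟩)
  have hPP : ∀ q ∈ P', q ∈ P := fun q hq => hP'P hq
  let s : Q → ℕ := fun q => if q ∈ P' then a (nrm q) % ℓ else 0
  obtain ⟨q1, hq1, hq1'⟩ : ∃ q ∈ P', nrm q = π0 := by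
    have : π0 ∈ P'.image nrm := by rw [himg]; exact hπ0
    exact Finset.mem_image.1 this
  refine hcon s ?_ ?_ ⟨q1, ?_⟩
    (b * ∏ q ∈ P', ((w q).leadingCoeff⁻¹) ^ (a (nrm q) % ℓ))
    (∏ q ∈ P', nrm q ^ (a (nrm q) / ℓ)) z ?_ ?_ ?_
  · intro q
    simp only [s]
    split_ifs
    · exact Nat.mod_lt _ hℓ.pos
    · exact hℓ.pos
  · intro q hq
    simp only [s]
    rw [if_neg]
    intro h
    exact hq (hPP q h)
  · simp only [s]
    rw [if_pos hq1, hq1']
    intro h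
    exact hna (Nat.dvd_of_mod_eq_zero h)
  · refine mul_ne_zero hb (Finset.prod_ne_zero_iff.2 fun q hq => pow_ne_zero _ ?_)
    exact inv_ne_zero (leadingCoeff_ne_zero.2 (hwne q (hPP q hq)))
  · refine IsCoprime.prod_right fun q hq => IsCoprime.pow_right ?_
    refine (hD.coprime_iff_not_dvd).2 (hDT _ ?_)
    rw [← himg]
    exact Finset.mem_image_of_mem _ hq
  · have h1 : ∏ π ∈ T, π ^ a π = ∏ q ∈ P', nrm q ^ a (nrm q) := by
      rw [← himg, Finset.prod_image hinj]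
    have h2 : ∏ q, w q ^ s q = ∏ q ∈ P', w q ^ (a (nrm q) % ℓ) := by
      rw [← Finset.prod_subset (Finset.subset_univ P') (fun q _ hq => by
        simp only [s]
        rw [if_neg hq, pow_zero])]
      refine Finset.prod_congr rfl fun q hq => ?_
      simp only [s]
      rw [if_pos hq]
    have h3 : C (b * ∏ q ∈ P', ((w q).leadingCoeff⁻¹) ^ (a (nrm q) % ℓ)) *
        ((∏ q, w q ^ s q) * (∏ q ∈ P', nrm q ^ (a (nrm q) / ℓ)) ^ ℓ) =
        C b * ∏ π ∈ T, π ^ a π := by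
      rw [h1, h2, C_mul, map_prod, ← Finset.prod_pow, mul_assoc, ← Finset.prod_mul_distrib,
        ← Finset.prod_mul_distrib]
      congr 1
      refine Finset.prod_congr rfl fun q hq => ?_
      have h4 : nrm q ^ a (nrm q) = nrm q ^ (a (nrm q) % ℓ) * (nrm q ^ (a (nrm q) / ℓ)) ^ ℓ := by
        rw [← pow_mul, ← pow_add]
        congr 1
        rw [mul_comm (a (nrm q) / ℓ)]
        exact (Nat.mod_add_div _ _).symm
      rw [h4, C_pow, ← mul_assoc, ← mul_pow, mul_comm (C _) (w q)]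
    rw [h3]
    exact hdvd

end Pool.Agent.D0H99.AC
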