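import Pool.Agent.D0H99.EA.Scale
import Pool.Agent.D0H99.EA.Fin2

/-!
# The layers
-/

set_option autoImplicit false
set_option linter.all false

open Polynomial IsDedekindDomain

namespace Pool.Agent.D0H99.AC

open Pool.Agent.Y713.Jac (ShaPrimaryTrivial ShaTateTrivial)
open Pool.Agent.D0H99.EA (prim_scale fin_sep Killed killed_zero dT desc)

theorem layers {ℓ : ℕ} (hℓ : ℓ.Prime) {k : Type} [Field k] {ζ : k} (hζ : IsPrimitiveRoot ζ ℓ)
    (hk0 : ((ℓ : ℕ) : k) ≠ 0) {G : (RatFunc k)[X]} (hs : G.Splits) (hsep : G.Separable)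
    (hdeg : ¬ ℓ ∣ G.natDegree) {α : Type}
    (s : Finset α) {D : α → k[X]} (hD : ∀ j, D j ≠ 0)
    (hall : ∀ (c : k) (e : α → ℕ), c ≠ 0 → ShaPrimaryTrivial ℓ
      (C (algebraMap k[X] (RatFunc k) (C c * ∏ j ∈ s, D j ^ e j)) * G) k[X])
    (L : Type) [Field L] [Algebra (RatFunc k) L] [Algebra k[X] L]
    [IsScalarTower k[X] (RatFunc k) L] (r : ℕ) (c : k) (a : α → ℕ) (c' : Fin r → k)
    (e : Fin r → α → ℕ) (u : Fin r → L) (hc : c ≠ 0) (hc' : ∀ i, c' i ≠ 0)
    (hu : ∀ i, u i ^ ℓ = algebraMap (RatFunc k) L (algebraMap k[X] (RatFunc k)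
        (C (c' i) * ∏ j ∈ s, D j ^ e i j)))
    (hgen : IntermediateField.adjoin (RatFunc k) (Set.range u) = ⊤)
    (R : Type) [CommRing R] [IsDedekindDomain R] [Algebra R L] [IsFractionRing R L]
    [Algebra k[X] R] [IsScalarTower k[X] R L] [IsIntegralClosure R k[X] L] :
    Killed ℓ r ((C (algebraMap k[X] (RatFunc k)
      (C c * ∏ j ∈ s, D j ^ a j)) * G).map
        (algebraMap (RatFunc k) L)) R := by
  classical
  have hinj : Function.Injective ((algebraMap k[X] (RatFunc k)).comp (C : k →+* k[X])) :=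
    RingHom.injective _
  have hK : ((ℓ : ℕ) : RatFunc k) ≠ 0 := by
    have h1 := (map_ne_zero_iff _ hinj).2 hk0
    rwa [map_natCast] at h1
  have hne : ∀ (c : k) (a : α → ℕ), c ≠ 0 → algebraMap k[X] (RatFunc k)
      (C c * ∏ j ∈ s, D j ^ a j) ≠ 0 := by
    intro c a hc
    rw [Ne, map_eq_zero_iff _ (IsFractionRing.injective k[X] (RatFunc k))]
    exact mul_ne_zero (C_ne_zero.2 hc) (Finset.prod_ne_zero_iff.2 fun j _ =>
      pow_ne_zero _ (hD j))
  let d : Fin r → RatFunc k := fun i => algebraMap k[X] (RatFunc k)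
    (C (c' i) * ∏ j ∈ s, D j ^ e i j)
  have hd : ∀ i, d i ≠ 0 := fun i => hne _ _ (hc' i)
  obtain ⟨hfd, hse⟩ := fin_sep hℓ.pos hK (d := d) hu hd hgen
  haveI : Algebra.IsIntegral k[X] R := IsIntegralClosure.isIntegral_algebra k[X] L
  have hprim : ∀ t : Fin r → Fin ℓ, ShaPrimaryTrivial ℓ
      (C (dT d t) * (C (algebraMap k[X] (RatFunc k)
        (C c * ∏ j ∈ s, D j ^ a j)) * G)) k[X] := by
    intro t
    have h1 := hall (c * ∏ i, c' i ^ (t i : ℕ))
      (fun j => a j + ∑ i, e i j * (t i : ℕ))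
      (mul_ne_zero hc (Finset.prod_ne_zero_iff.2 fun i _ => pow_ne_zero _ (hc' i)))
    have h2 : C (algebraMap k[X] (RatFunc k)
        (C (c * ∏ i, c' i ^ (t i : ℕ)) *
          ∏ j ∈ s, D j ^ (a j + ∑ i, e i j * (t i : ℕ)))) * G =
        C (dT d t) * (C (algebraMap k[X] (RatFunc k)
        (C c * ∏ j ∈ s, D j ^ a j)) * G) := by
      rw [← mul_assoc, ← C_mul]
      congr 2
      unfold dT
      have h6 : ∏ i, d i ^ (t i : ℕ) = algebraMap k[X] (RatFunc k)
          (∏ i, (C (c' i) * ∏ j ∈ s, D j ^ e i j) ^ (t i : ℕ)) := by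
        rw [map_prod]
        exact Finset.prod_congr rfl fun i _ => by rw [map_pow]
      rw [h6, ← map_mul]
      congr 1
      have h3 : ∏ j ∈ s, D j ^ (a j + ∑ i, e i j * (t i : ℕ)) =
          (∏ j ∈ s, D j ^ a j) *
            ∏ j ∈ s, ∏ i, D j ^ (e i j * (t i : ℕ)) := by
        rw [← Finset.prod_mul_distrib]
        refine Finset.prod_congr rfl fun j _ => ?_
        rw [Finset.prod_pow_eq_pow_sum, ← pow_add]
      have h5 : ∏ i, (C (c' i) * ∏ j ∈ s, D j ^ e i j) ^ (t i : ℕ) =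
          C (∏ i, c' i ^ (t i : ℕ)) *
            ∏ j ∈ s, ∏ i, D j ^ (e i j * (t i : ℕ)) := by
        rw [Finset.prod_comm, map_prod, ← Finset.prod_mul_distrib]
        refine Finset.prod_congr rfl fun i _ => ?_
        rw [mul_pow, C_pow, ← Finset.prod_pow]
        congr 1
        exact Finset.prod_congr rfl fun j _ => by rw [← pow_mul]
      rw [h3, h5, C_mul]
      ring
    rwa [h2] at h1
  have hE0 := hne c a hc
  set E : RatFunc k := algebraMap k[X] (RatFunc k) (C c * ∏ j ∈ s, D j ^ a j)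
  have hF1 : (C E * G).Splits := (Splits.C _).mul hs
  have hF2 : (C E * G).Separable := by
    refine hsep.of_dvd ⟨C (E⁻¹), ?_⟩
    rw [mul_comm (C E), mul_assoc, ← C_mul, mul_inv_cancel₀ hE0, C_1, mul_one]
  have hF3 : ¬ ℓ ∣ (C E * G).natDegree := by
    rwa [natDegree_C_mul hE0]
  have hζ' : IsPrimitiveRoot (algebraMap k[X] (RatFunc k) (C ζ)) ℓ :=
    hζ.map_of_injective (f := (algebraMap k[X] (RatFunc k)).comp C) hinj
  have key := desc (R := k[X]) (R' := R) hℓ hK hζ' hu hd hgen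
    hF1 hF2 hF3 (m := 0) (fun t => killed_zero (hprim t))
  rwa [zero_add, Fintype.card_fin] at key


end Pool.Agent.D0H99.AC
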