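import Pool.Agent.D0H99.AC.Cn
import Pool.Agent.D0H99.AC.Cr
import Pool.Agent.D0H99.AC.Lay

/-!
# Almost all curves and coverings
-/

set_option autoImplicit false
set_option linter.all false

open scoped Classical

namespace Pool.Agent.D0H99.AC

open Polynomial NumberField IsDedekindDomain Pool.Agent.R431.SG Pool.Agent.Y713

/-- the properties of a tuple with all obstructions -/
theorem data {k : Type} [Field k] [NumberField k] {ℓ : ℕ} (hℓ : ℓ.Prime) {ζ : k}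
    (hζ : IsPrimitiveRoot ζ ℓ) {N r m : ℕ} (hm : 2 ≤ m) (c : Ix N r (m + 2) → 𝓞 k)
    (hall : ∀ S : Option (Option (Qx N r ⊕ (Qx N r → Fin ℓ))),
      ∃ (p : ℕ) (_ : Fact p.Prime) (σ : 𝓞 k →+* ℤ_[p]),
        (fun q => red σ (c q)) ∈ Obs ℓ N r m S p) :
    Irreducible (tp (fun q => algebraMap (𝓞 k) k (c q)) (Sum.inl 0)) ∧
    (∀ b : k, (∃ a : k[X], tp (fun q => algebraMap (𝓞 k) k (c q)) (Sum.inl 0) ∣ C b - a ^ ℓ) →
      ∃ b' : k, b = b' ^ ℓ) ∧
    (∀ q ∈ Pq N r, Irreducible (wq (fun q => algebraMap (𝓞 k) k (c q)) q)) ∧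
    (∀ s : Qx N r → ℕ, (∀ q, s q < ℓ) → (∀ q, q ∉ Pq N r → s q = 0) →
      (∃ q, s q ≠ 0) → ∀ (a : k) (W z : k[X]), a ≠ 0 →
        IsCoprime (tp (fun q => algebraMap (𝓞 k) k (c q)) (Sum.inl 0)) W →
        ¬ tp (fun q => algebraMap (𝓞 k) k (c q)) (Sum.inl 0) ∣
          C a * ((∏ q, wq (fun q => algebraMap (𝓞 k) k (c q)) q ^ s q) * W ^ ℓ) - z ^ ℓ) := by
  have hred : ∀ (d : Fin (m + 3) → 𝓞 k) (p : ℕ) [Fact p.Prime] (σ : 𝓞 k →+* ℤ_[p]),
      (pol fun j => red σ (d j)).natDegree = m + 2 → Irreducible (pol fun j => red σ (d j)) →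
      Irreducible (pol fun j => algebraMap (𝓞 k) k (d j)) ∧
        (pol fun j => algebraMap (𝓞 k) k (d j)).natDegree = m + 2 := by
    intro d p _ σ h1 h2
    refine ⟨irr_of_red σ (by omega) d h1 h2, le_antisymm (pol_degree _) ?_⟩
    have h3 : ((pol fun j => d j).map (red σ)).natDegree = m + 2 := by
      rw [pol_map]; exact h1
    have h4 : ((pol fun j => d j).map (red σ)).natDegree ≤ (pol fun j => d j).natDegree :=
      natDegree_map_le
    have h5 : (pol fun j => algebraMap (𝓞 k) k (d j)) =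
        (pol fun j => d j).map (algebraMap (𝓞 k) k) := by rw [pol_map]
    rw [h5, natDegree_map_eq_of_injective (FaithfulSMul.algebraMap_injective _ _)]
    omega
  obtain ⟨p, hp, σ, hirr⟩ := hall none
  obtain ⟨hD, hDd⟩ := hred (fun j => c (Sum.inl 0, j)) p σ hirr.1 hirr.2
  refine ⟨hD, ?_, ?_, ?_⟩
  · intro b hb
    obtain ⟨p, hp, σ, r, g, hg1, hg2, hg3⟩ := hall (some none)
    have h3 : (pol fun j => σ (c (Sum.inl 0, j))).map (PadicInt.toZMod (p := p)) =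
        (X - C r) * g := by
      rw [pol_map]
      exact hg1
    obtain ⟨ρ, G, hG1, hG2, hG3⟩ := fac_padic (f := pol fun j => σ (c (Sum.inl 0, j))) (m := m + 1)
      (pol_degree _) r g hg3 hg2 (by omega) h3
    refine const_of_facL hℓ (ext σ) (hζ.map_of_injective (ext σ).injective) hDd (by omega) hG1
      hG2 (ρ := ρ) ?_ hb
    rw [← hG3, pol_map, pol_map]
    congr 1
    funext j
    exact ext_alg σ (c (Sum.inl 0, j))
  · intro q hq
    obtain ⟨p, hp, σ, hpq⟩ := hall (some (some (Sum.inl q)))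
    obtain ⟨h1, h2⟩ := hpq hq
    rcases q with ⟨a, b⟩ | x
    · have h3 : ∀ t, red σ (c (Sum.inl a.succ, t) - c (Sum.inl b.succ, t)) =
          red σ (c (Sum.inl a.succ, t)) - red σ (c (Sum.inl b.succ, t)) := fun t => map_sub _ _ _
      have hw : wq (fun q => red σ (c q)) (Sum.inl (a, b)) =
          pol fun t => red σ (c (Sum.inl a.succ, t)) - red σ (c (Sum.inl b.succ, t)) := by
        simp only [wq, Sum.elim_inl, tp]
        rw [pol_sub]
      rw [hw] at h1 h2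
      have h4 := hred (fun t => c (Sum.inl a.succ, t) - c (Sum.inl b.succ, t)) p σ (by
        simp only [h3]; exact h1) (by simp only [h3]; exact h2)
      have h5 : wq (fun q => algebraMap (𝓞 k) k (c q)) (Sum.inl (a, b)) =
          pol fun t => algebraMap (𝓞 k) k (c (Sum.inl a.succ, t) - c (Sum.inl b.succ, t)) := by
        simp only [wq, Sum.elim_inl, tp]
        rw [pol_sub]
        simp only [map_sub]
      rw [h5]
      exact h4.1
    · exact (hred (fun t => c (Sum.inr x, t)) p σ h1 h2).1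
  · intro s h1 h2 h3 a W z ha hW hd
    obtain ⟨p, hp, σ, ho⟩ := hall (some (some (Sum.inr fun q => ⟨s q, h1 q⟩)))
    have ho' := ho ⟨h2, h3⟩
    refine pair_contraL hℓ.ne_zero σ (c := fun j => c (Sum.inl 0, j))
      (f := ∏ q, wq c q ^ s q) ?_ ha hW (z := z) ?_
    · rw [prod_wq_map]
      exact ho'
    · rw [prod_wq_map]
      exact hd

/-- the curve of a tuple -/
noncomputable def crv {k : Type} [Field k] {N r n : ℕ} (c : Ix N r n → k) : (RatFunc k)[X] :=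
  C (algebraMap k[X] (RatFunc k) (tp c (Sum.inl 0))) *
    ∏ i : Fin N, (X - C (algebraMap k[X] (RatFunc k) (tp c (Sum.inl i.succ))))

/-- all the twists of a good tuple -/
theorem good_all {k : Type} [Field k] [NumberField k] {ℓ : ℕ} (hℓ : ℓ.Prime) {ζ : k}
    (hζ : IsPrimitiveRoot ζ ℓ) {N r n : ℕ} (hN : ¬ ℓ ∣ N) (c : Ix N r n → k)
    (hD : Irreducible (tp c (Sum.inl 0)))
    (hcs : ∀ b : k, (∃ a : k[X], tp c (Sum.inl 0) ∣ C b - a ^ ℓ) → ∃ b' : k, b = b' ^ ℓ)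
    (hirr : ∀ q ∈ Pq N r, Irreducible (wq c q))
    (hcon : ∀ s : Qx N r → ℕ, (∀ q, s q < ℓ) → (∀ q, q ∉ Pq N r → s q = 0) →
      (∃ q, s q ≠ 0) → ∀ (a : k) (W z : k[X]), a ≠ 0 → IsCoprime (tp c (Sum.inl 0)) W →
        ¬ tp c (Sum.inl 0) ∣ C a * ((∏ q, wq c q ^ s q) * W ^ ℓ) - z ^ ℓ) :
    (crv c).Splits ∧ (crv c).Separable ∧ (crv c).natDegree = N ∧
      (∀ j : Fin r, tp c (Sum.inr j) ≠ 0) ∧
      ∀ (d : k) (e : Fin r → ℕ), d ≠ 0 → Jac.ShaPrimaryTrivial ℓ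
        (C (algebraMap k[X] (RatFunc k) (C d * ∏ j, tp c (Sum.inr j) ^ e j)) * crv c) k[X] := by
  obtain ⟨T, hT, hTw, hTD⟩ := obs_gen hℓ (wq c) (Pq N r) hirr
  obtain ⟨hDT, hD5⟩ := hTD _ hD hcon
  have hh : ∀ j : Fin r, tp c (Sum.inr j) ≠ 0 := fun j => (hirr _ (inr_mem j)).ne_zero
  have hgne : ∀ i j : Fin N, i ≠ j → tp c (Sum.inl i.succ) - tp c (Sum.inl j.succ) ≠ 0 := by
    intro i j hij
    rcases lt_or_gt_of_ne hij with h | h
    · exact (hirr _ (inl_mem.2 h)).ne_zero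
    · have h1 := (hirr _ (inl_mem.2 h)).ne_zero
      intro h2
      apply h1
      simp only [wq, Sum.elim_inl]
      rw [← neg_sub, h2, neg_zero]
  have hginj : Function.Injective fun i : Fin N => tp c (Sum.inl i.succ) := by
    intro i j hij
    by_contra hne
    exact hgne i j hne (sub_eq_zero.2 hij)
  have hinj := IsFractionRing.injective k[X] (RatFunc k)
  have hg0 : algebraMap k[X] (RatFunc k) (tp c (Sum.inl 0)) ≠ 0 := by
    rw [Ne, map_eq_zero_iff _ hinj]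
    exact hD.ne_zero
  have hpne : ∀ i ∈ (Finset.univ : Finset (Fin N)),
      (X - C (algebraMap k[X] (RatFunc k) (tp c (Sum.inl i.succ)))) ≠ 0 := fun i _ =>
    X_sub_C_ne_zero _
  refine ⟨?_, ?_, ?_, hh, ?_⟩
  · exact (Splits.C _).mul (Splits.prod fun i _ => Splits.X_sub_C _)
  · have h1 : (∏ i : Fin N, (X - C (algebraMap k[X] (RatFunc k)
        (tp c (Sum.inl i.succ))))).Separable := by
      rw [separable_prod_X_sub_C_iff]
      exact hinj.comp hginj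
    refine h1.of_dvd ⟨C ((algebraMap k[X] (RatFunc k) (tp c (Sum.inl 0)))⁻¹), ?_⟩
    unfold crv
    rw [mul_comm (C (algebraMap k[X] (RatFunc k) (tp c (Sum.inl 0)))), mul_assoc, ← C_mul,
      mul_inv_cancel₀ hg0, C_1, mul_one]
  · unfold crv
    rw [natDegree_C_mul hg0, natDegree_prod _ _ hpne]
    simp
  · intro d e hd
    have key := crit_gen (RatFunc k) hℓ (by exact_mod_cast hℓ.ne_zero) hζ hN hginj T hT ?_ hD hcs
      hDT hD5 (f := C d * ∏ j, tp c (Sum.inr j) ^ e j) ?_ ?_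
    · have h1 : C (algebraMap k[X] (RatFunc k) (C d * ∏ j, tp c (Sum.inr j) ^ e j)) * crv c =
          C (algebraMap k[X] (RatFunc k) ((C d * ∏ j, tp c (Sum.inr j) ^ e j) *
            tp c (Sum.inl 0))) * ∏ i : Fin N, (X - C (algebraMap k[X] (RatFunc k)
              (tp c (Sum.inl i.succ)))) := by
        unfold crv
        rw [map_mul (algebraMap k[X] (RatFunc k)) (C d * ∏ j, tp c (Sum.inr j) ^ e j), C_mul,
          mul_assoc]
      rw [h1]
      exact key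
    · intro i j hij v hv
      rcases lt_or_gt_of_ne hij with h | h
      · exact hTw _ (inl_mem.2 h) v hv
      · intro hm
        refine hTw _ (inl_mem.2 h) v hv ?_
        simp only [wq, Sum.elim_inl]
        rw [← neg_sub]
        exact neg_mem hm
    · exact mul_ne_zero (C_ne_zero.2 hd) (Finset.prod_ne_zero_iff.2 fun j _ =>
        pow_ne_zero _ (hh j))
    · intro v hv hm
      haveI := v.isPrime
      rcases v.isPrime.mem_or_mem hm with h1 | h1
      · have hu : IsUnit (C d : k[X]) := isUnit_C.2 (isUnit_iff_ne_zero.2 hd)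
        exact v.isPrime.ne_top (Ideal.eq_top_of_isUnit_mem _ h1 hu)
      · obtain ⟨j, -, h2⟩ := Ideal.IsPrime.prod_mem_iff.1 h1
        exact hTw _ (inr_mem j) v hv (v.isPrime.mem_of_pow_mem _ h2)

/-- **Almost all curves and coverings.** -/
theorem main {k : Type} [Field k] [NumberField k] {J : Type} [Fintype J]
    (B : Module.Basis J ℤ (𝓞 k)) {ℓ : ℕ} (hℓ : ℓ.Prime) {ζ : k} (hζ : IsPrimitiveRoot ζ ℓ)
    {N : ℕ} (hN : ¬ ℓ ∣ N) (r : ℕ) {n : ℕ} (hn : 4 ≤ n) (Good : (Ix N r n → 𝓞 k) → Prop)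
    (hG : ∀ c : Ix N r n → 𝓞 k,
      ((crv (fun q => algebraMap (𝓞 k) k (c q))).Splits ∧
        (crv (fun q => algebraMap (𝓞 k) k (c q))).Separable ∧
        (crv (fun q => algebraMap (𝓞 k) k (c q))).natDegree = N ∧
        (∀ j : Fin r, tp (fun q => algebraMap (𝓞 k) k (c q)) (Sum.inr j) ≠ 0) ∧
        ∀ (d : k) (e : Fin r → ℕ), d ≠ 0 → Jac.ShaPrimaryTrivial ℓ
          (C (algebraMap k[X] (RatFunc k) (C d * ∏ j, tp (fun q => algebraMap (𝓞 k) k (c q))
            (Sum.inr j) ^ e j)) * crv (fun q => algebraMap (𝓞 k) k (c q))) k[X]) → Good c)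
    {η : ℝ} (hη : 0 < η) :
    ∃ H0 : ℕ, ∀ H : ℕ, H0 ≤ H →
      (({c : Ix N r n → 𝓞 k | (∀ q j, |B.repr (c q) j| ≤ (H : ℤ)) ∧ ¬ Good c}.ncard : ℕ) : ℝ) ≤
        η * (2 * H + 1) ^ (((N + 1 + r) * (n + 1)) * Fintype.card J) := by
  obtain ⟨m, rfl⟩ : ∃ m, n = m + 2 := ⟨n - 2, by omega⟩
  obtain ⟨ζ', hζ'⟩ : ∃ ζ' : 𝓞 k, IsPrimitiveRoot ζ' ℓ := by
    have hint : IsIntegral ℤ ζ := hζ.isIntegral hℓ.pos
    refine ⟨⟨ζ, hint⟩, ?_⟩
    refine IsPrimitiveRoot.of_map_of_injective (f := algebraMap (𝓞 k) k) ?_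
      (FaithfulSMul.algebraMap_injective _ _)
    exact hζ
  set δ : ℝ := 1 / (2048 * ((m + 2 : ℕ) : ℝ) ^ 2) with hδ
  obtain ⟨hδa, hδb, hδ1⟩ := e1 hn N
  rw [← hδ] at hδ1
  have hδ0 : 0 < δ := by positivity
  set p0 : ℕ := 1600 + (4 * (N + r + 1) + 6) + 2 * ((N + r + 1) * (N + r + 1)) + ℓ + 1 with hp0
  obtain ⟨H0, hH0⟩ := density B (I := Ix N r (m + 2)) (Finset.univ :
    Finset (Option (Option (Qx N r ⊕ (Qx N r → Fin ℓ))))) hδ0 hδ1 p0
    (fun S p _ _ => Obs ℓ N r m S p) (fun S _ p _ σ hp => card_Obs hℓ hζ' (by omega) S p σ hp) hη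
  refine ⟨H0, fun H hH => ?_⟩
  have hfin := hH0 H hH {c : Ix N r (m + 2) → 𝓞 k |
        (∀ q j, |B.repr (c q) j| ≤ (H : ℤ)) ∧ ¬ Good c} ?_
  · have hcard : Fintype.card (Ix N r (m + 2)) = (N + 1 + r) * (m + 2 + 1) := by
      rw [Fintype.card_prod, Fintype.card_sum, Fintype.card_fin, Fintype.card_fin,
        Fintype.card_fin]
    rw [hcard] at hfin
    exact hfin
  rintro c ⟨hbox, hnot⟩
  refine ⟨hbox, ?_⟩
  by_contra hall
  push Not at hall
  apply hnot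
  obtain ⟨h1, h2, h3, h4⟩ := data hℓ hζ (by omega) c (by
    intro S
    obtain ⟨p, hp, σ, -, ho⟩ := hall S (Finset.mem_univ _)
    exact ⟨p, hp, σ, ho⟩)
  exact hG c (good_all hℓ hζ hN _ h1 h2 h3 h4)

end Pool.Agent.D0H99.AC
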